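import Mathlib
import Pool.Agent.W296.QG

set_option autoImplicit false

/-!
# A quasi-geometric subdivision of the 3-simplex whose local h-vector is not unimodal

The definitions (`IsTopSubdivision`, `QuasiGeometric`, `localH`) are in
`Pool.Agent.W296.LocHDefs`.  The example: split off a flat simplex over a facet and
stack it.
-/

namespace Pool.Agent.Results.MP_230912_co.QuasiGeomNotUnimodal

open Finset Pool.Agent.W296.LocH Pool.Agent.W296.QG

theorem counts : ∀ W : Finset (Fin 4), ∀ i ∈ range 5,
    ((restr Gam sig W).filter fun F => F.card = i).card =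
      if W = {0, 1, 2} then [1, 4, 6, 3, 0].getD i 0
      else if W = univ then [1, 6, 13, 13, 5].getD i 0 else W.card.choose i := by
  decide +kernel

theorem hPoly_eq (W : Finset (Fin 4)) : hPoly W.card (restr Gam sig W) =
    1 + (if W = {0, 1, 2} then Polynomial.X + Polynomial.X ^ 2
      else if W = univ then 2 * Polynomial.X + Polynomial.X ^ 2 + Polynomial.X ^ 3 else 0) := by
  have hc : W.card ≤ 4 := by
    have := card_le_univ W
    simpa using this
  have h1 : hPoly W.card (restr Gam sig W) = ∑ i ∈ range (W.card + 1),
      Polynomial.C (((if W = {0, 1, 2} then [1, 4, 6, 3, 0].getD i 0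
      else if W = univ then [1, 6, 13, 13, 5].getD i 0 else W.card.choose i : ℕ)) : ℤ) *
        Polynomial.X ^ i * (1 - Polynomial.X) ^ (W.card - i) := by
    unfold hPoly
    refine sum_congr rfl fun i hi => ?_
    rw [counts W i (by rw [mem_range] at hi ⊢; omega)]
  rw [h1]
  by_cases h2 : W = {0, 1, 2}
  · subst h2
    simp only [if_true]
    have : ({0, 1, 2} : Finset (Fin 4)).card = 3 := by decide
    rw [this]
    simp only [sum_range_succ, sum_range_zero]
    simp
    ring
  · simp only [if_neg h2]
    by_cases h3 : W = univ
    · subst h3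
      simp only [if_true]
      have : (univ : Finset (Fin 4)).card = 4 := by decide
      rw [this]
      simp only [sum_range_succ, sum_range_zero]
      simp
      ring
    · simp only [if_neg h3]
      rw [add_zero]
      have h4 := add_pow (Polynomial.X : Polynomial ℤ) (1 - Polynomial.X) W.card
      rw [add_sub_cancel, one_pow] at h4
      refine (sum_congr rfl fun i _ => ?_).trans h4.symm
      rw [mul_assoc, mul_comm]
      congr 1

theorem localH_eq : localH Gam sig = Polynomial.X + Polynomial.X ^ 3 := by
  unfold localH
  simp only [hPoly_eq, mul_add, mul_one, sum_add_distrib]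
  have h1 : ∑ W : Finset (Fin 4), ((-1 : Polynomial ℤ) ^ (Fintype.card (Fin 4) - W.card)) = 0 := by
    have h2 : ∑ W : Finset (Fin 4), ((-1 : ℤ) ^ (Fintype.card (Fin 4) - W.card)) = 0 := by
      decide +kernel
    have h3 := congrArg (Polynomial.C : ℤ → Polynomial ℤ) h2
    simpa using h3
  rw [h1, zero_add]
  have h4 : ∀ W : Finset (Fin 4), ((-1 : Polynomial ℤ) ^ (Fintype.card (Fin 4) - W.card)) *
      (if W = {0, 1, 2} then Polynomial.X + Polynomial.X ^ 2
      else if W = univ then 2 * Polynomial.X + Polynomial.X ^ 2 + Polynomial.X ^ 3 else 0) =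
      (if W = {0, 1, 2} then -(Polynomial.X + Polynomial.X ^ 2) else 0) +
      (if W = univ then 2 * Polynomial.X + Polynomial.X ^ 2 + Polynomial.X ^ 3 else 0) := by
    intro W
    by_cases h2 : W = {0, 1, 2}
    · subst h2
      have e1 : ({0, 1, 2} : Finset (Fin 4)).card = 3 := by decide
      have e2 : ({0, 1, 2} : Finset (Fin 4)) ≠ univ := by decide
      simp only [if_true, if_neg e2, e1, Fintype.card_fin]
      ring
    · by_cases h3 : W = univ
      · subst h3
        simp only [if_true, if_neg h2, card_univ, Fintype.card_fin]
        ring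
      · simp only [if_neg h2, if_neg h3]
        ring
  rw [sum_congr rfl fun W _ => h4 W, sum_add_distrib, sum_ite_eq', sum_ite_eq']
  simp only [mem_univ, if_true]
  ring

/-- There is a quasi-geometric (topological) subdivision of the simplex with four vertices whose
local h-polynomial is `x + x^3`, that is, whose local h-vector `(0, 1, 0, 1, 0)` is not
unimodal. -/
theorem result : ∃ (Γ : Finset (Finset (Fin 6))) (σ : Finset (Fin 6) → Finset (Fin 4)),
    IsTopSubdivision Γ σ ∧ QuasiGeometric Γ σ ∧
      localH Γ σ = Polynomial.X + Polynomial.X ^ 3 :=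
  ⟨Gam, sig, isSub, quasi, localH_eq⟩

end Pool.Agent.Results.MP_230912_co.QuasiGeomNotUnimodal
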